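import Pool.Agent.Helper83_AEU.Tools

/-!
Module C2 of squad AEU, Part II: a critical body which contains exactly one vertex is of type B or
of type E.
-/

namespace Pool.Agent.AEU.H5

open MeasureTheory Complex Filter Topology Pool.Agent.H62T Pool.Agent.AEU Pool.Agent.AEU.H83
open Pool.Agent.H16F (Sublin)

lemma ne_hull (hhul : HulStatement) {P : Finset HP} {h : ℂ → ℝ} {s : HP} (hs : s ∈ touch P h)
    {m : ℕ} (x : Fin (m + 1) → ℂ) (hx : ∀ i, ip s.1 (x i) < s.2) : h ≠ hf x := by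
  intro e
  have h1 := (mem_touch.1 hs).2
  rw [e] at h1
  exact absurd h1 (((hhul m x).2.2.2.2.2 s.1 s.2).2 hx).ne

lemma card3 {a b c : HP} (h1 : a ≠ b) (h2 : a ≠ c) (h3 : b ≠ c) :
    3 ≤ ({a, b, c} : Finset HP).card := by
  rw [Finset.card_insert_of_notMem (by simp [h1, h2]), Finset.card_pair h3]

lemma card4 {a b c d : HP} (h1 : a ≠ b) (h2 : a ≠ c) (h3 : b ≠ c) :
    3 ≤ ({a, b, c, d} : Finset HP).card := by
  refine (card3 h1 h2 h3).trans (Finset.card_le_card ?_)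
  intro s hs
  simp only [Finset.mem_insert, Finset.mem_singleton] at hs ⊢
  rcases hs with h | h | h
  exacts [Or.inl h, Or.inr (Or.inl h), Or.inr (Or.inr (Or.inl h))]

lemma ip_add_mul (u a b : ℂ) (t : ℝ) : ip u (a + (t : ℂ) * b) = ip u a + t * ip u b := by
  simp [ip]
  ring

lemma norm_sq_ip (z : ℂ) : ‖z‖ ^ 2 = ip z z := by
  rw [← Complex.normSq_eq_norm_sq, Complex.normSq_apply]
  rfl

/-- a nonnegative quadratic polynomial near its root -/
lemma quad_zero {c : ℝ} (h : ∀ᶠ t : ℝ in 𝓝 0, 0 ≤ 2 * t * c + t ^ 2) : c = 0 := by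
  by_contra hc
  have h1 : Tendsto (fun δ : ℝ => -c * δ) (𝓝[>] 0) (𝓝 0) := by
    have : Tendsto (fun δ : ℝ => -c * δ) (𝓝 0) (𝓝 (-c * 0)) :=
      (continuous_const.mul continuous_id).tendsto 0
    rw [mul_zero] at this
    exact this.mono_left nhdsWithin_le_nhds
  have h2 := h1.eventually h
  have h3 : ∀ᶠ δ : ℝ in 𝓝[>] 0, δ ∈ Set.Ioo (0 : ℝ) 2 := Ioo_mem_nhdsGT (by norm_num)
  obtain ⟨δ, h4, h5⟩ := (h2.and h3).exists
  have h6 : 2 * (-c * δ) * c + (-c * δ) ^ 2 = c ^ 2 * δ * (δ - 2) := by ring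
  rw [h6] at h4
  have h7 : 0 < c ^ 2 * δ := mul_pos (by positivity) h5.1
  nlinarith [h5.2]

/-- the nearest point of a side is the foot of the perpendicular -/
lemma foot_of_min {P : Finset HP} {q : HP} (hq : ‖q.1‖ = 1) {v x : ℂ} (hx : ip q.1 x = q.2)
    (hs : ∀ s ∈ P, s ≠ q → ip s.1 x < s.2)
    (hmin : ∀ y ∈ Cl P, ip q.1 y = q.2 → ‖v - x‖ ≤ ‖v - y‖) :
    v + ((q.2 - ip q.1 v : ℝ) : ℂ) * q.1 = x := by
  have hqq : ip q.1 q.1 = 1 := by rw [← norm_sq_ip, hq]; norm_num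
  have hqI : ip q.1 (I * q.1) = 0 := by simp [ip]; ring
  have hII : ip (I * q.1) (I * q.1) = 1 := by
    have : ip (I * q.1) (I * q.1) = ip q.1 q.1 := by simp [ip]; ring
    rw [this, hqq]
  have hcl : ∀ᶠ t : ℝ in 𝓝 0, ∀ s ∈ P, ip s.1 (x + (t : ℂ) * (I * q.1)) ≤ s.2 := by
    rw [Filter.eventually_all_finset]
    intro s hsP
    rcases eq_or_ne s q with rfl | hne
    · refine Eventually.of_forall fun t => ?_
      rw [ip_add_mul, hqI, hx]
      simp
    · have hcont : ContinuousAt (fun t : ℝ => ip s.1 (x + (t : ℂ) * (I * q.1))) 0 := by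
        simp only [ip_add_mul]
        exact (continuous_const.add (continuous_id.mul continuous_const)).continuousAt
      have h0 : ip s.1 (x + ((0 : ℝ) : ℂ) * (I * q.1)) < s.2 := by
        simpa using hs s hsP hne
      exact (hcont.eventually (gt_mem_nhds h0)).mono fun t ht => ht.le
  have hz : ip (I * q.1) (x - v) = 0 := by
    apply quad_zero
    refine hcl.mono fun t ht => ?_
    have h1 := hmin (x + (t : ℂ) * (I * q.1)) ht (by rw [ip_add_mul, hqI, hx]; simp)
    have h2 : ‖v - x‖ ^ 2 ≤ ‖v - (x + (t : ℂ) * (I * q.1))‖ ^ 2 :=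
      pow_le_pow_left₀ (norm_nonneg _) h1 2
    rw [norm_sq_ip, norm_sq_ip] at h2
    have h3 : ip (v - (x + (t : ℂ) * (I * q.1))) (v - (x + (t : ℂ) * (I * q.1)))
        = ip (v - x) (v - x) + 2 * t * ip (I * q.1) (x - v)
          + t ^ 2 * ip (I * q.1) (I * q.1) := by
      simp [ip]
      ring
    rw [h3, hII] at h2
    linarith
  have hd : x - v = ((ip q.1 (x - v) : ℝ) : ℂ) * q.1 := by
    have hn : q.1.re * q.1.re + q.1.im * q.1.im = 1 := hqq
    have hz' : -(q.1.im * (x.re - v.re)) + q.1.re * (x.im - v.im) = 0 := by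
      have := hz
      simp [ip] at this
      linarith
    apply Complex.ext
    · simp [ip]
      linear_combination (-(x.re - v.re)) * hn + (-q.1.im) * hz'
    · simp [ip]
      linear_combination (-(x.im - v.im)) * hn + (q.1.re) * hz'
  have he : ip q.1 (x - v) = q.2 - ip q.1 v := by
    rw [← hx]; simp [ip]; ring
  rw [he] at hd
  rw [← hd]
  ring

theorem c2 (hsup : SupStatement) (hlam : LamStatement) (hhul : HulStatement)
    (hper : PerStatement) (huni : UniStatement) (hver : VerStatement) (hmix : MixStatement)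
    (hlc : LcStatement) (hlm : LmStatement) : C2Statement := by
  intro P Q gP gQ L h hc i j v hv hvh huq
  have hsp : Special P h := hc.unm.1
  have hV := hver P gP.pg gP.g1
  obtain ⟨hit, hjt⟩ := hV.2.2.2.2.2.2.2.1 i j v h hv hsp.fits hvh
  have hvV : Vx P v := ⟨i, j, hv⟩
  have hij : i ≠ j := hv.ne
  have hin := hV.2.2.2.2.2.2.1 h hsp.fits
  -- contact points
  have key : ∀ q ∈ touch P h, q ≠ i → q ≠ j → ∃ x, In x h ∧ ip q.1 x = q.2 ∧ x ∈ Cl P ∧
      ∀ s ∈ P, s ≠ q → ip s.1 x < s.2 := by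
    intro q hq hqi hqj
    obtain ⟨x, hx, hxq⟩ := contact hsup hsp.sub hq
    have hxP := hin x hx
    have hqP := (mem_touch.1 hq).1
    refine ⟨x, hx, hxq, hxP, hV.2.2.2.2.2.1 x hxP q hqP hxq ?_⟩
    intro hxV
    have hxv := huq x hxV hx
    rw [hxv] at hxq
    rcases hV.1 i j v hv q hqP hxq with e | e
    exacts [hqi e, hqj e]
  have hvs : ∀ q ∈ P, q ≠ i → q ≠ j → ip q.1 v < q.2 := hV.2.1 i j v hv
  have hLM := hlm P Q gP.pg gQ.pg gP.g1 gQ.g1 L h hc
  set F := ((touch P h).erase i).erase j with hF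
  have hFm : ∀ q, q ∈ F ↔ q ≠ j ∧ q ≠ i ∧ q ∈ touch P h := by
    intro q
    rw [hF, Finset.mem_erase, Finset.mem_erase]
  have hcard : F.card + 2 = (touch P h).card := by
    have h1 : ((touch P h).erase i).card + 1 = (touch P h).card := Finset.card_erase_add_one hit
    have h2 : (((touch P h).erase i).erase j).card + 1 = ((touch P h).erase i).card :=
      Finset.card_erase_add_one (Finset.mem_erase.2 ⟨hij.symm, hjt⟩)
    rw [← h1, ← h2]
  have hF1 : 1 ≤ F.card := by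
    have := hsp.three
    omega
  have two : ∀ x : ℂ, x ∈ Cl P → ∀ a : Fin 2, (![v, x] : Fin 2 → ℂ) a ∈ Cl P := by
    intro x hx a
    fin_cases a
    exacts [hv.cl, hx]
  have three : ∀ x y : ℂ, x ∈ Cl P → y ∈ Cl P → ∀ a : Fin 3,
      (![v, x, y] : Fin 3 → ℂ) a ∈ Cl P := by
    intro x y hx hy a
    fin_cases a
    exacts [hv.cl, hx, hy]
  have st2 : ∀ q ∈ F, ∀ x ∈ Cl P, ip q.1 x = q.2 → lam (hf ![v, x]) < L →
      ∃ g, Fits Q (mb g h) ∧ ∀ s ∈ ({i, j, q} : Finset HP), mv g s ∈ Q := by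
    intro q hq x hx hxq hl
    obtain ⟨hqj, hqi, hqt⟩ := (hFm q).1 hq
    refine step hlc hhul hmix gP gQ hc ![v, x] (two x hx) hl {i, j, q} ?_
      (card3 hij hqi.symm hqj.symm) hvV hvh 0 rfl
    intro s hs
    simp only [Finset.mem_insert, Finset.mem_singleton] at hs
    rcases hs with rfl | rfl | rfl
    · exact ⟨hit, 0, hv.on₁⟩
    · exact ⟨hjt, 0, hv.on₂⟩
    · exact ⟨hqt, 1, hxq⟩
  have st3 : ∀ q ∈ F, ∀ r ∈ F, ∀ x ∈ Cl P, ∀ y ∈ Cl P, ip q.1 x = q.2 → ip r.1 y = r.2 →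
      lam (hf ![v, x, y]) < L →
      ∃ g, Fits Q (mb g h) ∧ ∀ s ∈ ({i, j, q, r} : Finset HP), mv g s ∈ Q := by
    intro q hq r hr x hx y hy hxq hyr hl
    obtain ⟨hqj, hqi, hqt⟩ := (hFm q).1 hq
    obtain ⟨hrj, hri, hrt⟩ := (hFm r).1 hr
    refine step hlc hhul hmix gP gQ hc ![v, x, y] (three x y hx hy) hl {i, j, q, r} ?_
      (card4 hij hqi.symm hqj.symm) hvV hvh 0 rfl
    intro s hs
    simp only [Finset.mem_insert, Finset.mem_singleton] at hs
    rcases hs with rfl | rfl | rfl | rfl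
    · exact ⟨hit, 0, hv.on₁⟩
    · exact ⟨hjt, 0, hv.on₂⟩
    · exact ⟨hqt, 1, hxq⟩
    · exact ⟨hrt, 2, hyr⟩
  have mem_F : ∀ s ∈ touch P h, s = i ∨ s = j ∨ s ∈ F := by
    intro s hs
    by_cases h1 : s = i
    · exact Or.inl h1
    by_cases h2 : s = j
    · exact Or.inr (Or.inl h2)
    exact Or.inr (Or.inr ((hFm s).2 ⟨h2, h1, hs⟩))
  rcases (by omega : F.card = 1 ∨ F.card = 2 ∨ 3 ≤ F.card) with hc1 | hc2 | hc3
  · -- three contacts
    left
    obtain ⟨q, hq⟩ := Finset.card_eq_one.1 hc1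
    have hqF : q ∈ F := by rw [hq]; exact Finset.mem_singleton_self q
    obtain ⟨hqj, hqi, hqt⟩ := (hFm q).1 hqF
    have hqP := (mem_touch.1 hqt).1
    have hmin : ∀ y ∈ Cl P, ip q.1 y = q.2 → L ≤ 2 * ‖v - y‖ := by
      intro y hy hyq
      by_contra hlt
      rw [not_le, ← hper.1] at hlt
      obtain ⟨g, hg, hg'⟩ := st2 q hqF y hy hyq hlt
      refine hLM ⟨g, hg, fun s hs => ?_⟩
      rcases mem_F s hs with rfl | rfl | hs'
      · exact hg' _ (by simp)
      · exact hg' _ (by simp)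
      · rw [hq, Finset.mem_singleton] at hs'
        rw [hs']
        exact hg' _ (by simp)
    obtain ⟨x, hxh, hxq, hxP, hxs⟩ := key q hqt hqi hqj
    have hbody : h = hf ![v, x] := by
      by_contra hne
      have h1 := lam_lt hlam hhul hsp.sub ![v, x]
        (by intro a; fin_cases a; exacts [hvh, hxh]) hne
      rw [hc.lam, hper.1] at h1
      exact absurd h1 (not_lt.2 (hmin x hxP hxq))
    have hLx : L = 2 * ‖v - x‖ := by rw [← hc.lam, hbody, hper.1]
    have hfoot := foot_of_min (gP.pg.unit q hqP) (v := v) hxq hxs (by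
      intro y hy hyq
      have := hmin y hy hyq
      rw [hLx] at this
      linarith)
    refine ⟨q, q.2 - ip q.1 v, hv, hqP, sub_pos.2 (hvs q hqP hqi hqj), ?_, ?_, ?_⟩
    · rw [hfoot]; exact hxq
    · rw [hfoot]; exact hxs
    · rw [hfoot]; exact hbody
  · -- four contacts
    right
    obtain ⟨q, r, hqr, hF2⟩ := Finset.card_eq_two.1 hc2
    have hqF : q ∈ F := by rw [hF2]; simp
    have hrF : r ∈ F := by rw [hF2]; simp
    obtain ⟨hqj, hqi, hqt⟩ := (hFm q).1 hqF
    obtain ⟨hrj, hri, hrt⟩ := (hFm r).1 hrF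
    have hqP := (mem_touch.1 hqt).1
    have hrP := (mem_touch.1 hrt).1
    obtain ⟨x, hxh, hxq, hxP, hxs⟩ := key q hqt hqi hqj
    obtain ⟨y, hyh, hyr, hyP, hys⟩ := key r hrt hri hrj
    have hx2 : ∀ a : Fin 2, In ((![v, x] : Fin 2 → ℂ) a) h := by
      intro a; fin_cases a; exacts [hvh, hxh]
    have hy2 : ∀ a : Fin 2, In ((![v, y] : Fin 2 → ℂ) a) h := by
      intro a; fin_cases a; exacts [hvh, hyh]
    have hxy3 : ∀ a : Fin 3, In ((![v, x, y] : Fin 3 → ℂ) a) h := by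
      intro a; fin_cases a; exacts [hvh, hxh, hyh]
    have n1 : h ≠ hf ![v, x] := ne_hull hhul hrt _ (by
      intro a; fin_cases a; exacts [hvs r hrP hri hrj, hxs r hrP hqr.symm])
    have n2 : h ≠ hf ![v, y] := ne_hull hhul hqt _ (by
      intro a; fin_cases a; exacts [hvs q hqP hqi hqj, hys q hqP hqr])
    obtain ⟨g, hg, hg'⟩ := st2 q hqF x hxP hxq
      (by rw [← hc.lam]; exact lam_lt hlam hhul hsp.sub _ hx2 n1)
    obtain ⟨g', hg1, hg1'⟩ := st2 r hrF y hyP hyr
      (by rw [← hc.lam]; exact lam_lt hlam hhul hsp.sub _ hy2 n2)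
    have hbody : h = hf ![v, x, y] := by
      by_contra hne
      obtain ⟨g2, hg2, hg2'⟩ := st3 q hqF r hrF x hxP y hyP hxq hyr
        (by rw [← hc.lam]; exact lam_lt hlam hhul hsp.sub _ hxy3 hne)
      refine hLM ⟨g2, hg2, fun s hs => ?_⟩
      rcases mem_F s hs with rfl | rfl | hs'
      · exact hg2' _ (by simp)
      · exact hg2' _ (by simp)
      · rw [hF2, Finset.mem_insert, Finset.mem_singleton] at hs'
        rcases hs' with rfl | rfl
        · exact hg2' _ (by simp)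
        · exact hg2' _ (by simp)
    refine ⟨q, r, x, y, g, g', hv, hqP, hrP, hqr, hqi, hqj, hri, hrj, hxq, hyr, hxs, hys, hbody,
      hg, hg' _ (by simp), hg' _ (by simp), hg' _ (by simp), hg1, hg1' _ (by simp),
      hg1' _ (by simp), hg1' _ (by simp), ?_⟩
    rintro rfl
    refine hLM ⟨g, hg, fun s hs => ?_⟩
    rcases mem_F s hs with rfl | rfl | hs'
    · exact hg' _ (by simp)
    · exact hg' _ (by simp)
    · rw [hF2, Finset.mem_insert, Finset.mem_singleton] at hs'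
      rcases hs' with rfl | rfl
      · exact hg' _ (by simp)
      · exact hg1' _ (by simp)
  · -- at least five contacts
    exfalso
    obtain ⟨q, hqF⟩ := Finset.card_pos.1 (by omega : 0 < F.card)
    obtain ⟨hqj, hqi, hqt⟩ := (hFm q).1 hqF
    have hqP := (mem_touch.1 hqt).1
    obtain ⟨x, hxh, hxq, hxP, hxs⟩ := key q hqt hqi hqj
    have hx2 : ∀ a : Fin 2, In ((![v, x] : Fin 2 → ℂ) a) h := by
      intro a; fin_cases a; exacts [hvh, hxh]
    have third : ∀ r ∈ F, ∃ s ∈ F, s ≠ q ∧ s ≠ r := by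
      intro r hr
      have h1 : 0 < ((F.erase q).erase r).card := by
        have e1 := Finset.pred_card_le_card_erase (s := F) (a := q)
        have e2 := Finset.pred_card_le_card_erase (s := F.erase q) (a := r)
        omega
      obtain ⟨s, hs⟩ := Finset.card_pos.1 h1
      rw [Finset.mem_erase, Finset.mem_erase] at hs
      exact ⟨s, hs.2.2, hs.2.1, hs.1⟩
    obtain ⟨s₀, hs₀F, hs₀q, -⟩ := third q hqF
    obtain ⟨hs₀j, hs₀i, hs₀t⟩ := (hFm s₀).1 hs₀F
    have hs₀P := (mem_touch.1 hs₀t).1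
    have n1 : h ≠ hf ![v, x] := ne_hull hhul hs₀t _ (by
      intro a; fin_cases a; exacts [hvs s₀ hs₀P hs₀i hs₀j, hxs s₀ hs₀P hs₀q])
    obtain ⟨g, hg, hg'⟩ := st2 q hqF x hxP hxq
      (by rw [← hc.lam]; exact lam_lt hlam hhul hsp.sub _ hx2 n1)
    refine hLM ⟨g, hg, fun r hr => ?_⟩
    rcases mem_F r hr with rfl | rfl | hrF
    · exact hg' _ (by simp)
    · exact hg' _ (by simp)
    obtain ⟨hrj, hri, hrt⟩ := (hFm r).1 hrF
    have hrP := (mem_touch.1 hrt).1
    obtain ⟨y, hyh, hyr, hyP, hys⟩ := key r hrt hri hrj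
    obtain ⟨s, hsF, hsq, hsr⟩ := third r hrF
    obtain ⟨hsj, hsi, hst⟩ := (hFm s).1 hsF
    have hsP := (mem_touch.1 hst).1
    have hxy3 : ∀ a : Fin 3, In ((![v, x, y] : Fin 3 → ℂ) a) h := by
      intro a; fin_cases a; exacts [hvh, hxh, hyh]
    have n3 : h ≠ hf ![v, x, y] := ne_hull hhul hst _ (by
      intro a; fin_cases a
      exacts [hvs s hsP hsi hsj, hxs s hsP hsq, hys s hsP hsr])
    obtain ⟨g2, hg2, hg2'⟩ := st3 q hqF r hrF x hxP y hyP hxq hyr
      (by rw [← hc.lam]; exact lam_lt hlam hhul hsp.sub _ hxy3 n3)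
    have hgg : g = g2 := (huni.2 P Q gP.pg gQ.pg gP.g1 gQ.g1 g g2).2 {i, j, q}
      (by
        intro t ht
        simp only [Finset.mem_insert, Finset.mem_singleton] at ht
        rcases ht with rfl | rfl | rfl
        exacts [hv.mem₁, hv.mem₂, hqP])
      (card3 hij hqi.symm hqj.symm) hg'
      (by
        intro t ht
        simp only [Finset.mem_insert, Finset.mem_singleton] at ht
        rcases ht with rfl | rfl | rfl
        exacts [hg2' _ (by simp), hg2' _ (by simp), hg2' _ (by simp)])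
    rw [hgg]
    exact hg2' r (by simp)

end Pool.Agent.AEU.H5
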